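import Pool.Agent.R492.DW.W2
import Pool.Agent.R492.DV.Fin2

set_option autoImplicit false

/-! Valuation rings with principal maximal ideal on a field which is NIP, `NIP_n` or NTP2. -/

namespace Pool.Agent.R492.DW

open FirstOrder FirstOrder.Language NNReal Polynomial
open Pool.Agent.R492.DV
open Pool.Agent.W882.Nip3 Pool.Agent.Results.MP_3554b5_lc.UnramifiedNorms

theorem pSet_of {K : Type} [Field K] {O : ValuationSubring K} {d : ℕ} (hd : 2 ≤ d)
    {ϖ : O} (hϖ0 : ϖ ≠ 0) (hmax : IsLocalRing.maximalIdeal O = Ideal.span {ϖ})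
    (hE : HasExt d O) : PSet d (ϖ : K) (O : Set K) := by
  obtain ⟨L, _, _, hsep, hfin⟩ := hE
  have hϖK : (ϖ : K) ≠ 0 := fun h => hϖ0 (Subtype.ext h)
  have hunit : ∀ x : O, IsUnit x → ∃ y ∈ (O : Set K), (x : K) * y = 1 := by
    rintro x ⟨w, rfl⟩
    refine ⟨((w⁻¹ : Oˣ) : O), ((w⁻¹ : Oˣ) : O).2, ?_⟩
    rw [← MulMemClass.coe_mul, Units.mul_inv]
    rfl
  refine ⟨O.one_mem, fun x hx y hy => O.add_mem _ _ hx hy, fun x hx => O.neg_mem _ hx,
    fun x hx y hy => O.mul_mem _ _ hx hy, ?_, ?_, ?_⟩
  · intro x y hxy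
    rcases O.mem_or_inv_mem x with h | h
    · exact Or.inl h
    · right
      have : y = x⁻¹ := eq_inv_of_mul_eq_one_right hxy
      rw [this]
      exact h
  · refine ⟨ϖ.2, hϖK, ?_, ?_⟩
    · intro y hy h1
      have h2 : IsUnit ϖ := IsUnit.of_mul_eq_one ⟨y, hy⟩ (Subtype.ext h1)
      have h3 : ϖ ∈ IsLocalRing.maximalIdeal O := by
        rw [hmax]
        exact Ideal.mem_span_singleton_self ϖ
      exact (IsLocalRing.mem_maximalIdeal ϖ).1 h3 h2
    · intro x hx
      by_cases h1 : IsUnit (⟨x, hx⟩ : O)
      · exact Or.inl (hunit _ h1)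
      · right
        have h2 : (⟨x, hx⟩ : O) ∈ IsLocalRing.maximalIdeal O := h1
        rw [hmax, Ideal.mem_span_singleton] at h2
        obtain ⟨y, hy⟩ := h2
        exact ⟨y, y.2, congrArg Subtype.val hy⟩
  · have : FiniteDimensional (IsLocalRing.ResidueField O) L :=
      FiniteDimensional.of_finrank_pos (by omega)
    obtain ⟨α, hα⟩ := Field.exists_primitive_element (IsLocalRing.ResidueField O) L
    have hint : IsIntegral (IsLocalRing.ResidueField O) α := Algebra.IsIntegral.isIntegral α
    have hdeg : (minpoly (IsLocalRing.ResidueField O) α).natDegree = d := by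
      rw [(Field.primitive_element_iff_minpoly_natDegree_eq _ α).1 hα, hfin]
    obtain ⟨a, ha⟩ := exists_pol _ (minpoly.monic hint) hdeg
    have hirr := minpoly.irreducible hint
    have hs : (minpoly (IsLocalRing.ResidueField O) α).Separable := hsep.isSeparable' α
    rw [ha] at hirr hs
    refine ⟨fun i => (a i : K), fun i => (a i).2, ?_, ?_⟩
    · have h1 : derivative (pol a) ≠ 0 := by
        intro h2
        have h3 := hs
        rw [separable_def, h2] at h3
        have h4 := isCoprime_zero_right.1 h3
        exact hirr.not_isUnit h4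
      obtain ⟨k, hk⟩ : ∃ k, (derivative (pol a)).coeff k ≠ 0 := by
        by_contra hcon
        push Not at hcon
        exact h1 (Polynomial.ext fun k => by rw [hcon k, coeff_zero])
      rw [coeff_derivative, coeff_pol] at hk
      have hkd : k < d := by
        by_contra hcon
        have h3 : mo a (k + 1) = 0 := by
          unfold mo
          rw [dif_neg (by omega), if_neg (by omega)]
        rw [h3, map_zero, zero_mul] at hk
        exact hk rfl
      obtain ⟨z, hz, hz1⟩ := exists_mul_eq_one (O := O) (x := ((k + 1 : ℕ) : O) * mo a (k + 1)) (by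
        rw [map_mul, map_natCast]
        intro h5
        apply hk
        rw [mul_comm]
        push_cast at h5
        exact h5)
      refine ⟨⟨k, hkd⟩, z, hz, ?_⟩
      rw [← coe_mo]
      rw [← hz1]
      push_cast
      rfl
    · intro e he b c hb hc
      let b' : Fin (e : ℕ) → O := fun i => ⟨b i, hb i⟩
      let c' : Fin (d - (e : ℕ)) → O := fun i => ⟨c i, hc i⟩
      have hne : pol a ≠ pol b' * pol c' := by
        intro h1
        rcases hirr.isUnit_or_isUnit h1 with h2 | h2
        · have := natDegree_eq_zero_of_isUnit h2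
          rw [natDegree_pol] at this
          omega
        · have := natDegree_eq_zero_of_isUnit h2
          rw [natDegree_pol] at this
          have := e.2
          omega
      obtain ⟨k, hk⟩ : ∃ k, (pol a).coeff k ≠ (pol b' * pol c').coeff k := by
        by_contra hcon
        push Not at hcon
        exact hne (Polynomial.ext hcon)
      have hm : (pol b' * pol c').Monic := (monic_pol b').mul (monic_pol c')
      have hmd : (pol b' * pol c').natDegree = d := by
        rw [(monic_pol b').natDegree_mul (monic_pol c'), natDegree_pol, natDegree_pol]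
        have := e.2
        omega
      have hkd : k < d := by
        by_contra hcon
        apply hk
        rcases (not_lt.1 hcon).eq_or_lt with h3 | h3
        · have h4 : (pol a).coeff k = 1 := by
            have := monic_pol a
            rw [Monic, leadingCoeff, natDegree_pol] at this
            rw [← h3]
            exact this
          have h5 : (pol b' * pol c').coeff k = 1 := by
            rw [Monic, leadingCoeff, hmd] at hm
            rw [← h3]
            exact hm
          rw [h4, h5]
        · rw [coeff_eq_zero_of_natDegree_lt (by rw [natDegree_pol]; exact h3),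
            coeff_eq_zero_of_natDegree_lt (by rw [hmd]; exact h3)]
      rw [coeff_pol, coeff_mul, Finset.Nat.sum_antidiagonal_eq_sum_range_succ
        (fun i j => (pol b').coeff i * (pol c').coeff j)] at hk
      obtain ⟨z, hz, hz1⟩ := exists_mul_eq_one (O := O)
        (x := mo a k - ∑ j ∈ Finset.range (k + 1), mo b' j * mo c' (k - j)) (by
        intro h6
        rw [map_sub, map_sum, sub_eq_zero] at h6
        apply hk
        rw [h6]
        refine Finset.sum_congr rfl fun j _ => ?_
        rw [coeff_pol, coeff_pol, map_mul])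
      refine ⟨⟨k, hkd⟩, z, hz, ?_⟩
      rw [← hz1]
      congr 1
      rw [AddSubgroupClass.coe_sub, coe_mo, AddSubmonoidClass.coe_finsetSum]
      congr 1
      refine Finset.sum_congr rfl fun j _ => ?_
      rw [MulMemClass.coe_mul, coe_mo, coe_mo]

theorem not_injective3 {K' : Type} [Field K'] {d : ℕ} (hd : 2 ≤ d) {N : ℕ}
    (hN : ∀ P : Fin N → ValuedPlace K', (Pairwise fun i j => (P i).Incomparable (P j)) →
        ∃ i, (P i).TameUpTo d)
    (t : K') (Q : Fin N → Set K') (hQ : ∀ i, PSet d t (Q i)) :
    ¬ Function.Injective Q := by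
  intro hinj
  choose O κ fκ π v hπ hsm ha hL using fun i => w2 K' d hd t (Q i) (hQ i)
  let P : Fin N → ValuedPlace K' := fun i =>
    { O := O i
      κ := κ i
      field := fκ i
      π := π i
      surjective := hπ i
      v := v i }
  obtain ⟨i, hi⟩ := hN P (by
    intro i j hij
    obtain ⟨x, hx0, hx1, hx2⟩ := w3 (hQ i) (hQ j) (fun h => hij (hinj h))
    exact ⟨x, hx0, (hsm i x).2 hx1, (hsm j x⁻¹).2 hx2⟩)
  rcases (hi d (by omega) le_rfl).1 with h1 | h1
  · obtain ⟨a, h2⟩ := ha i
    obtain ⟨c, hc⟩ := h1 a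
    exact h2 c hc
  · exact h1 (hL i)

theorem eq_top_of {K : Type} [Field K] {O : ValuationSubring K}
    (h : IsLocalRing.maximalIdeal O = Ideal.span {0}) (x : K) : x ∈ O := by
  rcases O.mem_or_inv_mem x with h1 | h1
  · exact h1
  · by_contra hx
    have h2 : (⟨x⁻¹, h1⟩ : O) ∈ IsLocalRing.maximalIdeal O := by
      rw [IsLocalRing.mem_maximalIdeal, mem_nonunits_iff]
      rintro ⟨w, hw⟩
      apply hx
      have h3 : ((w : O) : K) * (((w⁻¹ : Oˣ) : O) : K) = 1 := by
        rw [← MulMemClass.coe_mul, Units.mul_inv]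
        rfl
      rw [hw] at h3
      have h4 : ((((w⁻¹ : Oˣ) : O)) : K) = x := by
        have : x⁻¹ * (((w⁻¹ : Oˣ) : O) : K) = 1 := h3
        rw [← inv_inv x]
        exact eq_inv_of_mul_eq_one_right this
      rw [← h4]
      exact ((w⁻¹ : Oˣ) : O).2
    rw [h, Ideal.mem_span_singleton, zero_dvd_iff] at h2
    have h5 : x⁻¹ = 0 := congrArg Subtype.val h2
    rw [inv_eq_zero] at h5
    exact hx (h5 ▸ O.zero_mem)

theorem main3 (hKu : KStm) (K : Type) [Field K] [FirstOrder.Ring.CompatibleRing K]
    (hK : NIPField K ∨ (∃ n, NIPnField n K) ∨ NTP2Field K) :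
    (∀ O : ValuationSubring K, (IsLocalRing.maximalIdeal O).IsPrincipal →
      ¬ IsSepClosed (IsLocalRing.ResidueField O) →
      ∃ (p : ℕ) (ψ : FirstOrder.Language.ring.Formula (Fin 1 ⊕ Fin p)) (c : Fin p → K),
        ∀ x : K, x ∈ O ↔ ψ.Realize (Sum.elim (fun _ => x) c)) ∧
    ∀ d : ℕ, 2 ≤ d → ∃ N : ℕ, ∀ (K' : Type) [Field K'] [FirstOrder.Ring.CompatibleRing K'],
      FirstOrder.Language.ring.ElementarilyEquivalent K K' → ∀ t : K', t ≠ 0 →
      {O : ValuationSubring K' | (∃ h : t ∈ O, IsLocalRing.maximalIdeal O = Ideal.span {⟨t, h⟩}) ∧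
        HasExt d O}.encard < N := by
  refine ⟨fun O hO hOs => ?_, fun d hd => ?_⟩
  · obtain ⟨ϖ, hϖ⟩ := hO
    change IsLocalRing.maximalIdeal O = Ideal.span {ϖ} at hϖ
    by_cases hϖ0 : ϖ = 0
    · rw [hϖ0] at hϖ
      refine ⟨0, ⊤, fun i => i.elim0, fun x => ⟨fun _ => ?_, fun _ => eq_top_of hϖ x⟩⟩
      exact Formula.realize_top.2 trivial
    obtain ⟨d, hd, hOd⟩ := exists_hasExt hOs
    obtain ⟨N, hN⟩ := (result K hK).1 d
    have hD := pSet_of hd hϖ0 hϖ hOd
    refine kueker_const hKu FirstOrder.Language.ring K (O : Set K) N 1 (fun _ => (ϖ : K)) ?_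
    intro M' _ _ t' Q hQ hinj
    rcases Nat.eq_zero_or_pos N with rfl | hNpos
    · obtain ⟨i, -⟩ := (hN K (by rw [elementarilyEquivalent_iff]; intro φ; rfl)).1
        (fun i => i.elim0) (fun i => i.elim0)
      exact i.elim0
    · have he := eqv_of_same (hQ ⟨0, hNpos⟩).1
      have : FirstOrder.Language.Theory.field.Model M' := by
        have h1 : FirstOrder.Language.Theory.field.Model K := inferInstance
        exact he.theory_model_iff.1 h1
      let _ := FirstOrder.Field.fieldOfModelField M'
      let _ := FirstOrder.Field.compatibleRingOfModelField M'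
      exact not_injective3 hd (hN M' he).1 (t' 0) Q (fun i => pSet_transfer hD (hQ i)) hinj
  · obtain ⟨N, hN⟩ := (result K hK).1 d
    refine ⟨N, fun K' _ _ hKK' t ht0 => ?_⟩
    by_contra hcon
    rw [not_lt] at hcon
    obtain ⟨u, hu, huN⟩ := Set.exists_subset_encard_eq hcon
    have huf : u.Finite := Set.finite_of_encard_eq_coe huN
    have hcard : huf.toFinset.card = N := by
      have h1 := huf.encard_eq_coe_toFinset_card
      rw [huN] at h1
      exact_mod_cast h1.symm
    let e : Fin N → ValuationSubring K' := fun i => (huf.toFinset.equivFinOfCardEq hcard).symm i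
    have heinj : Function.Injective e := fun i j hij =>
      (huf.toFinset.equivFinOfCardEq hcard).symm.injective (Subtype.ext hij)
    have hemem : ∀ i, (∃ h : t ∈ e i, IsLocalRing.maximalIdeal (e i) = Ideal.span {⟨t, h⟩}) ∧
        HasExt d (e i) := fun i =>
      hu (huf.mem_toFinset.1 ((huf.toFinset.equivFinOfCardEq hcard).symm i).2)
    refine not_injective3 hd (hN K' hKK').1 t (fun i => (e i : Set K')) (fun i => ?_) ?_
    · obtain ⟨⟨h1, h2⟩, h3⟩ := hemem i
      exact pSet_of hd (ϖ := ⟨t, h1⟩) (fun h => ht0 (congrArg Subtype.val h)) h2 h3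
    · intro i j hij
      exact heinj (SetLike.coe_injective hij)

end Pool.Agent.R492.DW
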