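import Pool.Agent.R492.DV.Stm

set_option autoImplicit false

/-! Kueker's theorem with finitely many elements named by constants. -/

namespace Pool.Agent.R492.DW

open FirstOrder FirstOrder.Language
open Pool.Agent.R492.DV

/-- The same formulas of the language `L` with a unary predicate hold for the tuple `t` in `(M, P)`
and for the tuple `t'` in `(M', Q)`. -/
def SameC (L : FirstOrder.Language.{0, 0}) {r : ℕ} {M M' : Type} [L.Structure M] [L.Structure M']
    (t : Fin r → M) (t' : Fin r → M') (P : Set M) (Q : Set M') : Prop :=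
  Same L (fun _ : Fin 1 => P) (fun _ : Fin 1 => Q) ∧
  ∀ φ : (L.sum (UL 1)).BoundedFormula Empty r,
    (letI := ul (fun _ : Fin 1 => P); φ.Realize default t) ↔
      (letI := ul (fun _ : Fin 1 => Q); φ.Realize default t')

theorem sameC_of_same (L : FirstOrder.Language.{0, 0}) {r : ℕ} {M M' : Type} [L.Structure M]
    [L.Structure M'] (t : Fin r → M) (t' : Fin r → M') (P : Set M) (Q : Set M')
    (s : L[[Fin r]].Structure M) (s' : L[[Fin r]].Structure M')
    [(L.lhomWithConstants (Fin r)).IsExpansionOn M] [(L.lhomWithConstants (Fin r)).IsExpansionOn M']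
    (ht : ∀ i, ((L.con i : L[[Fin r]].Constants) : M) = t i)
    (ht' : ∀ i, ((L.con i : L[[Fin r]].Constants) : M') = t' i)
    (h : Same L[[Fin r]] (fun _ : Fin 1 => P) (fun _ : Fin 1 => Q)) : SameC L t t' P Q := by
  let _ := ul (fun _ : Fin 1 => P)
  let _ := ul (fun _ : Fin 1 => Q)
  have h0 : (L[[Fin r]].sum (UL 1)).ElementarilyEquivalent M M' := h
  rw [elementarilyEquivalent_iff] at h0
  let g : L.sum (UL 1) →ᴸ L[[Fin r]].sum (UL 1) :=
    (L.lhomWithConstants (Fin r)).sumMap (LHom.id (UL 1))
  have e1 : g.IsExpansionOn M := LHom.sumMap_isExpansionOn _ _ M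
  have e2 : g.IsExpansionOn M' := LHom.sumMap_isExpansionOn _ _ M'
  refine ⟨?_, fun φ => ?_⟩
  · show (L.sum (UL 1)).ElementarilyEquivalent M M'
    rw [elementarilyEquivalent_iff]
    intro σ
    have := h0 (g.onSentence σ)
    rwa [LHom.realize_onSentence, LHom.realize_onSentence] at this
  · have := h0 ((g.onFormula φ.toFormula).subst (fun a : Empty ⊕ Fin r =>
      Sum.elim (fun e : Empty => e.elim) (fun i => (LHom.sumInl (L' := UL 1)).onTerm
        (Constants.term (L.con i : L[[Fin r]].Constants))) a))
    unfold Sentence.Realize Formula.Realize at this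
    rw [BoundedFormula.realize_subst, BoundedFormula.realize_subst] at this
    have e3 : (fun a : Empty ⊕ Fin r => (Sum.elim (fun e : Empty => e.elim)
        (fun i => (LHom.sumInl (L' := UL 1)).onTerm
          (Constants.term (L.con i : L[[Fin r]].Constants))) a :
          (L[[Fin r]].sum (UL 1)).Term Empty).realize (default : Empty → M)) =
        Sum.elim default t := by
      funext a
      rcases a with a | i
      · exact a.elim
      · simp only [Sum.elim_inr, LHom.realize_onTerm, Term.realize_constants]
        exact ht i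
    have e4 : (fun a : Empty ⊕ Fin r => (Sum.elim (fun e : Empty => e.elim)
        (fun i => (LHom.sumInl (L' := UL 1)).onTerm
          (Constants.term (L.con i : L[[Fin r]].Constants))) a :
          (L[[Fin r]].sum (UL 1)).Term Empty).realize (default : Empty → M')) =
        Sum.elim default t' := by
      funext a
      rcases a with a | i
      · exact a.elim
      · simp only [Sum.elim_inr, LHom.realize_onTerm, Term.realize_constants]
        exact ht' i
    rw [e3, e4] at this
    have h5 : (g.onFormula φ.toFormula).Realize (Sum.elim default t : Empty ⊕ Fin r → M) ↔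
        (g.onFormula φ.toFormula).Realize (Sum.elim default t' : Empty ⊕ Fin r → M') := this
    rw [LHom.realize_onFormula, LHom.realize_onFormula, BoundedFormula.realize_toFormula,
      BoundedFormula.realize_toFormula] at h5
    exact h5

/-- Kueker's theorem with constants. -/
theorem kueker_const (hKu : KStm) (L : FirstOrder.Language.{0, 0}) (K : Type) [L.Structure K]
    [Nonempty K] (P : Set K) (N r : ℕ) (t : Fin r → K)
    (h : ∀ (M' : Type) [L.Structure M'] [Nonempty M'] (t' : Fin r → M') (Q : Fin N → Set M'),
      (∀ i, SameC L t t' P (Q i)) → ¬ Function.Injective Q) :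
    ∃ (p : ℕ) (ψ : L.Formula (Fin 1 ⊕ Fin p)) (c : Fin p → K),
      ∀ x, x ∈ P ↔ ψ.Realize (Sum.elim (fun _ => x) c) := by
  let _ : (constantsOn (Fin r)).Structure K := constantsOn.structure t
  obtain ⟨p, ψ, c, hψ⟩ := hKu L[[Fin r]] K P N (by
    intro M' s' _ Q hQ
    let _ : L.Structure M' := (L.lhomWithConstants (Fin r)).reduct M'
    refine h M' (fun i => ((L.con i : L[[Fin r]].Constants) : M')) Q fun i => ?_
    exact sameC_of_same L t _ P (Q i) _ s' (fun i => rfl) (fun i => rfl) (hQ i))
  refine ⟨r + p, Formula.relabel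
    (Sum.elim (fun i => Sum.inr (Fin.castAdd p i)) (Sum.elim Sum.inl
      (fun j => Sum.inr (Fin.natAdd r j))))
    (BoundedFormula.constantsVarsEquiv ψ : L.Formula (Fin r ⊕ (Fin 1 ⊕ Fin p))),
    Fin.append t c, fun x => ?_⟩
  rw [hψ, Formula.realize_relabel]
  have h1 : ((Sum.elim (fun _ => x) (Fin.append t c) : Fin 1 ⊕ Fin (r + p) → K) ∘
      (Sum.elim (fun i => Sum.inr (Fin.castAdd p i)) (Sum.elim Sum.inl
      (fun j => Sum.inr (Fin.natAdd r j))))) =
      Sum.elim (fun a => ((L.con a : L[[Fin r]].Constants) : K)) (Sum.elim (fun _ => x) c) := by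
    funext a
    rcases a with i | a | j
    · simp only [Function.comp_apply, Sum.elim_inl, Sum.elim_inr, Fin.append_left]
      rfl
    · rfl
    · simp only [Function.comp_apply, Sum.elim_inr, Fin.append_right]
  rw [h1]
  exact (BoundedFormula.realize_constantsVarsEquiv (L := L) (α := Fin r) (φ := ψ)
    (v := Sum.elim (fun _ => x) c) (xs := default)).symm

end Pool.Agent.R492.DW
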