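import Pool.Agent.R492.DV.E1
import Pool.Agent.R492.DV.E2
import Pool.Agent.R492.DW.W1

set_option autoImplicit false

/-! Valuation rings with a given generator of the maximal ideal: first-order transfer, the place of
the coarsening, and incomparability. -/

namespace Pool.Agent.R492.DW

open FirstOrder FirstOrder.Language FirstOrder.Ring NNReal Polynomial
open Pool.Agent.R492.DV

/-- `Q` is a valuation ring of the field `K` with maximal ideal `(p)`, `p ≠ 0`, and the residue field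
has a separable extension of degree `d`, generated by a root of the reduction of the monic polynomial
with coefficients `a`: it has no factorization, and its derivative is not zero. -/
structure PSet {K : Type} [Field K] (d : ℕ) (p : K) (Q : Set K) : Prop where
  one : (1 : K) ∈ Q
  add : ∀ x ∈ Q, ∀ y ∈ Q, x + y ∈ Q
  neg : ∀ x ∈ Q, -x ∈ Q
  mul : ∀ x ∈ Q, ∀ y ∈ Q, x * y ∈ Q
  total : ∀ x y : K, x * y = 1 → x ∈ Q ∨ y ∈ Q
  unif : p ∈ Q ∧ p ≠ 0 ∧ (∀ y ∈ Q, p * y ≠ 1) ∧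
    (∀ x ∈ Q, (∃ y ∈ Q, x * y = 1) ∨ ∃ y ∈ Q, x = p * y)
  ext : ∃ a : Fin d → K, (∀ i, a i ∈ Q) ∧
    (∃ (k : Fin d) (z : K), z ∈ Q ∧ (((k : ℕ) + 1 : ℕ) : K) * mc a ((k : ℕ) + 1) * z = 1) ∧
    ∀ e : Fin d, 0 < (e : ℕ) → ∀ (b : Fin (e : ℕ) → K) (c : Fin (d - (e : ℕ)) → K),
      (∀ i, b i ∈ Q) → (∀ i, c i ∈ Q) →
      ∃ (k : Fin d) (z : K), z ∈ Q ∧
        (mc a (k : ℕ) - ∑ j ∈ Finset.range ((k : ℕ) + 1), mc b j * mc c ((k : ℕ) - j)) * z = 1

section fo

open F1 E1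

/-- The formula for `unif`. -/
def uF : BF 1 :=
  inP (F1.var 0) ⊓ ((eqF (F1.var 0) 0).not ⊓
    ((∀' ((inP (n := 2) (F1.var 1)).imp (eqF (n := 2) (F1.var 0 * F1.var 1) 1).not)) ⊓
    (∀' ((inP (n := 2) (F1.var 1)).imp
      ((∃' (inP (n := 3) (F1.var 2) ⊓ eqF (n := 3) (F1.var 1 * F1.var 2) 1)) ⊔
       (∃' (inP (n := 3) (F1.var 2) ⊓ eqF (n := 3) (F1.var 1) (F1.var 0 * F1.var 2))))))))

/-- The other clauses. -/
noncomputable def rF (d : ℕ) : BF 0 :=
  sOne ⊓ (sAdd ⊓ (sNeg ⊓ (sMul ⊓ (sTotal ⊓ sExt d))))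

variable {K : Type} [Field K] [CompatibleRing K]

theorem realize_uF (Q : Fin 1 → Set K) (v : Empty → K) (t : Fin 1 → K) :
    (letI := ul Q; uF.Realize v t) ↔ (t 0 ∈ Q 0 ∧ t 0 ≠ 0 ∧ (∀ y ∈ Q 0, t 0 * y ≠ 1) ∧
      (∀ x ∈ Q 0, (∃ y ∈ Q 0, x * y = 1) ∨ ∃ y ∈ Q 0, x = t 0 * y)) := by
  let _ := ul Q
  show uF.Realize v t ↔ _
  have hE : ∀ {n : ℕ} (t₁ t₂ : RT n) (v : Empty → K) (xs : Fin n → K),
      (eqF t₁ t₂).Realize v xs ↔
      t₁.realize (Sum.elim v xs) = t₂.realize (Sum.elim v xs) := realize_eqF Q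
  have hP : ∀ {n : ℕ} (t : RT n) (v : Empty → K) (xs : Fin n → K),
      (inP t).Realize v xs ↔ t.realize (Sum.elim v xs) ∈ Q 0 := realize_inP Q
  simp only [uF, BoundedFormula.realize_all, BoundedFormula.realize_imp,
      BoundedFormula.realize_ex, BoundedFormula.realize_inf, BoundedFormula.realize_not,
      BoundedFormula.realize_sup, hP, hE, realize_mul, realize_var', realize_one, realize_zero]
  exact Iff.rfl

theorem realize_rF (Q : Fin 1 → Set K) (d : ℕ) (v : Empty → K) (xs : Fin 0 → K) :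
    (letI := ul Q; (rF d).Realize v xs) ↔ ((1 : K) ∈ Q 0 ∧ (∀ x ∈ Q 0, ∀ y ∈ Q 0, x + y ∈ Q 0) ∧
      (∀ x ∈ Q 0, -x ∈ Q 0) ∧ (∀ x ∈ Q 0, ∀ y ∈ Q 0, x * y ∈ Q 0) ∧
      (∀ x y : K, x * y = 1 → x ∈ Q 0 ∨ y ∈ Q 0) ∧
      ∃ a : Fin d → K, (∀ i, a i ∈ Q 0) ∧
        (∃ (k : Fin d) (z : K), z ∈ Q 0 ∧ (((k : ℕ) + 1 : ℕ) : K) * mc a ((k : ℕ) + 1) * z = 1) ∧
        ∀ e : Fin d, 0 < (e : ℕ) → ∀ (b : Fin (e : ℕ) → K) (c : Fin (d - (e : ℕ)) → K),
          (∀ i, b i ∈ Q 0) → (∀ i, c i ∈ Q 0) →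
          ∃ (k : Fin d) (z : K), z ∈ Q 0 ∧
            (mc a (k : ℕ) - ∑ j ∈ Finset.range ((k : ℕ) + 1), mc b j * mc c ((k : ℕ) - j)) * z
              = 1) := by
  let _ := ul Q
  show (rF d).Realize v xs ↔ _
  have hE : ∀ {n : ℕ} (t₁ t₂ : RT n) (v : Empty → K) (xs : Fin n → K),
      (eqF t₁ t₂).Realize v xs ↔
      t₁.realize (Sum.elim v xs) = t₂.realize (Sum.elim v xs) := realize_eqF Q
  have hP : ∀ {n : ℕ} (t : RT n) (v : Empty → K) (xs : Fin n → K),
      (inP t).Realize v xs ↔ t.realize (Sum.elim v xs) ∈ Q 0 := realize_inP Q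
  have h1 : (sOne).Realize v xs ↔ (1 : K) ∈ Q 0 := by
    simp [sOne, hP]
  have h2 : (sAdd).Realize v xs ↔ ∀ x ∈ Q 0, ∀ y ∈ Q 0, x + y ∈ Q 0 := by
    simp only [sAdd, BoundedFormula.realize_all, BoundedFormula.realize_imp, hP, realize_add,
      realize_var']
    exact ⟨fun h x hx y hy => h x y hx hy, fun h x y hx hy => h x hx y hy⟩
  have h3 : (sNeg).Realize v xs ↔ ∀ x ∈ Q 0, -x ∈ Q 0 := by
    simp only [sNeg, BoundedFormula.realize_all, BoundedFormula.realize_imp, hP, realize_neg,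
      realize_var']
    exact ⟨fun h x hx => h x hx, fun h x hx => h x hx⟩
  have h4 : (sMul).Realize v xs ↔ ∀ x ∈ Q 0, ∀ y ∈ Q 0, x * y ∈ Q 0 := by
    simp only [sMul, BoundedFormula.realize_all, BoundedFormula.realize_imp, hP, realize_mul,
      realize_var']
    exact ⟨fun h x hx y hy => h x y hx hy, fun h x y hx hy => h x hx y hy⟩
  have h5 : (sTotal).Realize v xs ↔ ∀ x y : K, x * y = 1 → x ∈ Q 0 ∨ y ∈ Q 0 := by
    simp only [sTotal, BoundedFormula.realize_all, BoundedFormula.realize_imp,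
      BoundedFormula.realize_sup, hP, hE, realize_mul, realize_var', realize_one]
    exact ⟨fun h x y => h x y, fun h x y => h x y⟩
  have h7 := realize_sExt Q d v xs
  simp only [rF, BoundedFormula.realize_inf, h1, h2, h3, h4, h5]
  exact and_congr_right fun _ => and_congr_right fun _ => and_congr_right fun _ =>
    and_congr_right fun _ => and_congr_right fun _ => h7

/-- The property `PSet` is first order. -/
theorem pSet_transfer {K' : Type} [Field K'] [CompatibleRing K'] {d : ℕ} {t : Fin 1 → K}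
    {t' : Fin 1 → K'} {P : Set K} {Q : Set K'} (hP : PSet d (t 0) P)
    (hS : SameC FirstOrder.Language.ring t t' P Q) : PSet d (t' 0) Q := by
  obtain ⟨hS0, hS1⟩ := hS
  have h := (@elementarilyEquivalent_iff _ K K' (@sumStructure _ _ K _ (ul fun _ : Fin 1 => P))
    (@sumStructure _ _ K' _ (ul fun _ : Fin 1 => Q))).1 hS0 (rF d)
  have h1 := realize_rF (fun _ : Fin 1 => P) d default default
  have h2 := realize_rF (fun _ : Fin 1 => Q) d default default
  have h3 := h2.1 (h.1 (h1.2 ⟨hP.one, hP.add, hP.neg, hP.mul, hP.total, hP.ext⟩))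
  have h4 := (realize_uF (fun _ : Fin 1 => Q) default t').1
    ((hS1 uF).1 ((realize_uF (fun _ : Fin 1 => P) default t).2 hP.unif))
  exact ⟨h3.1, h3.2.1, h3.2.2.1, h3.2.2.2.1, h3.2.2.2.2.1, h4, h3.2.2.2.2.2⟩

end fo

section comp

variable {K : Type} [Field K] {d d' : ℕ} {p : K} {Q Q₁ Q₂ : Set K}

theorem PSet.zero_mem (h : PSet d p Q) : (0 : K) ∈ Q := by
  have h1 := h.add 1 h.one (-1) (h.neg 1 h.one)
  rwa [add_neg_cancel] at h1

theorem PSet.inv_mem (h : PSet d p Q) {x : K} (hx : x ∉ Q) : x⁻¹ ∈ Q := by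
  have hx0 : x ≠ 0 := by
    rintro rfl
    exact hx h.zero_mem
  rcases h.total x x⁻¹ (mul_inv_cancel₀ hx0) with h1 | h1
  · exact absurd h1 hx
  · exact h1

/-- If one ring contains the other one, they are equal. -/
theorem not_ssubset_p (h1 : PSet d p Q₁) (h2 : PSet d' p Q₂) (hs : Q₁ ⊆ Q₂) : Q₂ ⊆ Q₁ := by
  intro x hx2
  by_contra hx1
  have hx0 : x ≠ 0 := by
    rintro rfl
    exact hx1 h1.zero_mem
  have hxi := h1.inv_mem hx1
  rcases h1.unif.2.2.2 x⁻¹ hxi with ⟨y, hy, h3⟩ | ⟨y, hy, h3⟩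
  · apply hx1
    have h4 : y = x := by
      have := congrArg (fun t => x * t) h3
      simp only [mul_one] at this
      rw [← mul_assoc, mul_inv_cancel₀ hx0, one_mul] at this
      exact this
    rwa [← h4]
  · refine h2.unif.2.2.1 (y * x) (h2.mul _ (hs hy) _ hx2) ?_
    rw [← mul_assoc, ← h3, inv_mul_cancel₀ hx0]

theorem incomparable_p (h1 : PSet d p Q₁) {a b : K} (ha1 : a ∈ Q₁) (hb1 : b ∉ Q₁) :
    b⁻¹ * a ∈ Q₁ ∧ ∀ y ∈ Q₁, b⁻¹ * a * y ≠ 1 := by
  have hb0 : b ≠ 0 := by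
    rintro rfl
    exact hb1 h1.zero_mem
  refine ⟨h1.mul _ (h1.inv_mem hb1) _ ha1, fun y hy hay => hb1 ?_⟩
  have h3 : a * y = b := by
    have := congrArg (fun t => b * t) hay
    simp only [mul_one] at this
    rw [mul_assoc, ← mul_assoc, mul_inv_cancel₀ hb0, one_mul] at this
    exact this
  rw [← h3]
  exact h1.mul _ ha1 _ hy

theorem w3 (h1 : PSet d p Q₁) (h2 : PSet d' p Q₂) (hne : Q₁ ≠ Q₂) :
    ∃ x : K, x ≠ 0 ∧ (x ∈ Q₁ ∧ ∀ y ∈ Q₁, x * y ≠ 1) ∧
      (x⁻¹ ∈ Q₂ ∧ ∀ y ∈ Q₂, x⁻¹ * y ≠ 1) := by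
  obtain ⟨a, ha1, ha2⟩ : ∃ a ∈ Q₁, a ∉ Q₂ := by
    by_contra hcon
    push Not at hcon
    exact hne (Set.Subset.antisymm hcon (not_ssubset_p h1 h2 hcon))
  obtain ⟨b, hb2, hb1⟩ : ∃ b ∈ Q₂, b ∉ Q₁ := by
    by_contra hcon
    push Not at hcon
    exact hne (Set.Subset.antisymm (not_ssubset_p h2 h1 hcon) hcon)
  have ha0 : a ≠ 0 := by
    rintro rfl
    exact ha2 h2.zero_mem
  have hb0 : b ≠ 0 := by
    rintro rfl
    exact hb1 h1.zero_mem
  refine ⟨b⁻¹ * a, mul_ne_zero (inv_ne_zero hb0) ha0, incomparable_p h1 ha1 hb1, ?_⟩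
  have h3 := incomparable_p h2 hb2 ha2
  have h4 : (b⁻¹ * a)⁻¹ = a⁻¹ * b := by rw [mul_inv, inv_inv, mul_comm]
  rw [h4]
  exact h3

end comp

/-- The place given by the coarsening with real (discrete) valuation. -/
theorem w2 (K : Type) [Field K] (d : ℕ) (hd : 2 ≤ d) (p : K) (Q : Set K) (hQ : PSet d p Q) :
    ∃ (O : ValuationSubring K) (κ : Type) (_ : Field κ) (π : O →+* κ) (v : Valuation κ ℝ≥0),
      Function.Surjective π ∧
      (∀ x : K, (∃ h : x ∈ O, v (π ⟨x, h⟩) < 1) ↔ x ∈ Q ∧ ∀ y ∈ Q, x * y ≠ 1) ∧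
      (∃ a : κ, ∀ c : κ, v a ≠ v c ^ d) ∧
      ∃ (L : Type) (_ : Field L) (_ : Algebra (IsLocalRing.ResidueField v.valuationSubring) L),
        Algebra.IsSeparable (IsLocalRing.ResidueField v.valuationSubring) L ∧
        Module.finrank (IsLocalRing.ResidueField v.valuationSubring) L = d := by
  classical
  obtain ⟨hpQ, hp0, hpn, hpd⟩ := hQ.unif
  have h : UD Q p := ⟨hQ.one, hQ.add, hQ.neg, hQ.mul, hQ.total, hpQ, hp0, hpn, hpd⟩
  have hsurj := IsLocalRing.residue_surjective (R := cO h)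
  have hlt : ∀ x : K, x ∈ cO h → (val Q p x < 1 ↔ x ∈ Q ∧ ∀ y ∈ Q, x * y ≠ 1) := by
    intro x hx
    constructor
    · intro h1
      have h2 : val Q p x ≤ (1 / 2 : ℝ≥0) ^ (1 : ℤ) := by
        rcases val_cases h x with h0 | ⟨n, hn⟩
        · rw [h0]
          exact zero_le
        · rw [hn] at h1 ⊢
          rw [half_le_iff]
          by_contra hcon
          have : (1 / 2 : ℝ≥0) ^ (0 : ℤ) ≤ (1 / 2 : ℝ≥0) ^ n := half_le_iff.2 (by omega)
          rw [zpow_zero] at this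
          exact absurd h1 (not_lt.2 this)
      rw [val_le_iff h hx] at h2
      have h3 : x = p * (p ^ (-(1 : ℤ)) * x) := by
        rw [← mul_assoc, zpow_neg_one, mul_inv_cancel₀ hp0, one_mul]
      refine ⟨by rw [h3]; exact h.mul _ hpQ _ h2, fun y hy hxy => ?_⟩
      apply hpn (p ^ (-(1 : ℤ)) * x * y) (h.mul _ h2 _ hy)
      rw [← mul_assoc, ← h3, hxy]
    · rintro ⟨h1, h2⟩
      rcases hpd x h1 with ⟨y, hy, hxy⟩ | ⟨y, hy, rfl⟩
      · exact absurd hxy (h2 y hy)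
      · have h3 : val Q p (p * y) ≤ (1 / 2 : ℝ≥0) ^ (1 : ℤ) := by
          rw [val_le_iff h hx, ← mul_assoc, zpow_neg_one, inv_mul_cancel₀ hp0, one_mul]
          exact hy
        refine lt_of_le_of_lt h3 ?_
        rw [zpow_one]
        exact NNReal.half_lt_self one_ne_zero
  have hle : ∀ x : K, x ∈ cO h → val Q p x ≤ 1 → x ∈ Q := by
    intro x hx h1
    have := (val_le_iff h hx 0).1 (by simpa using h1)
    simpa using this
  have hge : ∀ x : K, x ∈ Q → val Q p x ≤ 1 := by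
    intro x hx
    have := (val_le_iff h (cO_of_mem h hx) 0).2 (by simpa using hx)
    simpa using this
  refine ⟨cO h, IsLocalRing.ResidueField (cO h), inferInstance, IsLocalRing.residue (cO h), vk h,
    hsurj, ?_, ?_, ?_⟩
  · intro x
    constructor
    · rintro ⟨hx, h1⟩
      rw [vk_residue] at h1
      exact (hlt x hx).1 h1
    · intro h1
      have hx := cO_of_mem h h1.1
      refine ⟨hx, ?_⟩
      rw [vk_residue]
      exact (hlt x hx).2 h1
  · refine ⟨IsLocalRing.residue (cO h) ⟨p, cO_of_mem h hpQ⟩, fun c hc => ?_⟩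
    obtain ⟨x, rfl⟩ := hsurj c
    rw [vk_residue, vk_residue] at hc
    have hp1 : val Q p p = (1 / 2 : ℝ≥0) ^ (1 : ℤ) :=
      val_of_lv h ⟨1, h.one, 1, h.one, by simp, by simp⟩
    rcases val_cases h (x : K) with h0 | ⟨n, hn⟩
    · rw [h0, zero_pow (by omega)] at hc
      rw [show ((⟨p, cO_of_mem h hpQ⟩ : cO h) : K) = p from rfl, hp1, zpow_one] at hc
      norm_num at hc
    · rw [hn, show ((⟨p, cO_of_mem h hpQ⟩ : cO h) : K) = p from rfl, hp1, ← zpow_natCast,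
        ← zpow_mul] at hc
      have h1 : (1 : ℤ) = n * d := le_antisymm (half_le_iff.1 (le_of_eq hc.symm))
        (half_le_iff.1 (le_of_eq hc))
      have h2 : (d : ℤ) ∣ 1 := ⟨n, by rw [mul_comm]; exact h1⟩
      have h3 : d ∣ 1 := by exact_mod_cast h2
      have := Nat.dvd_one.1 h3
      omega
  · obtain ⟨a, ha, hder, hfac⟩ := hQ.ext
    set V := (vk h).valuationSubring with hV
    have hmemV : ∀ x : cO h, IsLocalRing.residue (cO h) x ∈ V ↔ val Q p x ≤ 1 := by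
      intro x
      rw [hV, Valuation.mem_valuationSubring_iff, vk_residue]
    have hmemQ : ∀ (x : K) (hx : x ∈ Q),
        IsLocalRing.residue (cO h) ⟨x, cO_of_mem h hx⟩ ∈ V := fun x hx =>
      (hmemV _).2 (hge x hx)
    set R : K → IsLocalRing.ResidueField V := fun x =>
      if hx : x ∈ Q then IsLocalRing.residue V ⟨IsLocalRing.residue (cO h) ⟨x, cO_of_mem h hx⟩,
        hmemQ x hx⟩ else 0 with hRdef
    have hRx : ∀ (x : K) (hx : x ∈ Q), R x =
        IsLocalRing.residue V ⟨IsLocalRing.residue (cO h) ⟨x, cO_of_mem h hx⟩, hmemQ x hx⟩ := by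
      intro x hx
      simp only [hRdef]
      rw [dif_pos hx]
    have hR : RH Q R := by
      refine ⟨?_, ?_, ?_, ?_, ?_⟩
      · intro x hx y hy
        rw [hRx x hx, hRx y hy, hRx _ (h.add x hx y hy), ← map_add]
        congr 1
      · intro x hx y hy
        rw [hRx x hx, hRx y hy, hRx _ (h.mul x hx y hy), ← map_mul]
        congr 1
      · rw [hRx 1 h.one, ← map_one (IsLocalRing.residue V)]
        congr 1
      · rw [hRx 0 h.zero, ← map_zero (IsLocalRing.residue V)]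
        congr 1
      · intro c
        obtain ⟨c, rfl⟩ := IsLocalRing.residue_surjective c
        obtain ⟨c, hc⟩ := c
        obtain ⟨x, rfl⟩ := hsurj c
        have hxQ : (x : K) ∈ Q := hle x x.2 ((hmemV x).1 hc)
        exact ⟨x, hxQ, hRx _ hxQ⟩
    exact ext_of_RH h hR hd ha hder hfac

end Pool.Agent.R492.DW
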