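import Pool.Agent.R492.DV.OrdFin
import Pool.Agent.R492.DW.W1

set_option autoImplicit false

/-! Orderings whose natural value group is finitely generated modulo two. -/

namespace Pool.Agent.R492.DW

open FirstOrder FirstOrder.Language FirstOrder.Ring
open Pool.Agent.R492.DV
open Pool.Agent.W882.Nip3 Pool.Agent.R614.NF

/-- The elements `a i` are nonnegative in the ordering `o`, and for every `x ≥ 0` there are `i` and
`y` with `x ≤ a i * y ^ 2 ≤ 2 x`. -/
def Adapted {K : Type} [Field K] {r : ℕ} (a : Fin r → K) (o : FieldOrder K) : Prop :=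
  (∀ i, o.le 0 (a i)) ∧ ∀ x : K, o.le 0 x →
    ∃ (i : Fin r) (y : K), o.le x (a i * (y * y)) ∧ o.le (a i * (y * y)) (x + x)

/-- The set of the nonnegative elements of such an ordering. -/
structure OSet {K : Type} [Field K] {r : ℕ} (a : Fin r → K) (Q : Set K) : Prop where
  add : ∀ x ∈ Q, ∀ y ∈ Q, x + y ∈ Q
  mul : ∀ x ∈ Q, ∀ y ∈ Q, x * y ∈ Q
  total : ∀ x, x ∈ Q ∨ -x ∈ Q
  anti : ∀ x, x ∈ Q → -x ∈ Q → x = 0
  pos : ∀ i, a i ∈ Q
  sq : ∀ x ∈ Q, ∃ (i : Fin r) (y : K), a i * (y * y) + -x ∈ Q ∧ x + x + -(a i * (y * y)) ∈ Q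

section fo

open F1

/-- The sentence part. -/
def oF0 : BF 0 := sAdd ⊓ (sMul ⊓ (oTotal ⊓ oAnti))

/-- The part with constants. -/
noncomputable def oF (r : ℕ) : BF r :=
  (BoundedFormula.iInf fun i : Fin r => inP (F1.var i)) ⊓
  (∀' ((inP (n := r + 1) (F1.var (Fin.last r))).imp (BoundedFormula.iSup fun i : Fin r =>
    ∃' (inP (n := r + 2) (F1.var i.castSucc.castSucc *
        (F1.var (Fin.last (r + 1)) * F1.var (Fin.last (r + 1))) +
        -(F1.var (Fin.last r).castSucc)) ⊓
      inP (n := r + 2) (F1.var (Fin.last r).castSucc + F1.var (Fin.last r).castSucc +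
        -(F1.var i.castSucc.castSucc *
          (F1.var (Fin.last (r + 1)) * F1.var (Fin.last (r + 1)))))))))

variable {K : Type} [Field K] [CompatibleRing K]

theorem realize_oF0 (Q : Fin 1 → Set K) (v : Empty → K) (xs : Fin 0 → K) :
    (letI := ul Q; oF0.Realize v xs) ↔ ((∀ x ∈ Q 0, ∀ y ∈ Q 0, x + y ∈ Q 0) ∧
      (∀ x ∈ Q 0, ∀ y ∈ Q 0, x * y ∈ Q 0) ∧ (∀ x, x ∈ Q 0 ∨ -x ∈ Q 0) ∧
      (∀ x, x ∈ Q 0 → -x ∈ Q 0 → x = 0)) := by
  let _ := ul Q
  show oF0.Realize v xs ↔ _
  have hE : ∀ {n : ℕ} (t₁ t₂ : RT n) (v : Empty → K) (xs : Fin n → K),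
      (eqF t₁ t₂).Realize v xs ↔
      t₁.realize (Sum.elim v xs) = t₂.realize (Sum.elim v xs) := realize_eqF Q
  have hP : ∀ {n : ℕ} (t : RT n) (v : Empty → K) (xs : Fin n → K),
      (inP t).Realize v xs ↔ t.realize (Sum.elim v xs) ∈ Q 0 := realize_inP Q
  have h2 : (sAdd).Realize v xs ↔ ∀ x ∈ Q 0, ∀ y ∈ Q 0, x + y ∈ Q 0 := by
    simp only [sAdd, BoundedFormula.realize_all, BoundedFormula.realize_imp, hP, realize_add,
      realize_var']
    exact ⟨fun h x hx y hy => h x y hx hy, fun h x y hx hy => h x hx y hy⟩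
  have h4 : (sMul).Realize v xs ↔ ∀ x ∈ Q 0, ∀ y ∈ Q 0, x * y ∈ Q 0 := by
    simp only [sMul, BoundedFormula.realize_all, BoundedFormula.realize_imp, hP, realize_mul,
      realize_var']
    exact ⟨fun h x hx y hy => h x y hx hy, fun h x y hx hy => h x hx y hy⟩
  have h5 : (oTotal).Realize v xs ↔ ∀ x : K, x ∈ Q 0 ∨ -x ∈ Q 0 := by
    simp only [oTotal, BoundedFormula.realize_all,
      BoundedFormula.realize_sup, hP, realize_neg, realize_var']
    exact Iff.rfl
  have h6 : (oAnti).Realize v xs ↔ ∀ x : K, x ∈ Q 0 → -x ∈ Q 0 → x = 0 := by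
    simp only [oAnti, BoundedFormula.realize_all, BoundedFormula.realize_imp, hP, hE, realize_neg,
      realize_var', realize_zero]
    exact Iff.rfl
  simp only [oF0, BoundedFormula.realize_inf, h2, h4, h5, h6]

theorem realize_oF (Q : Fin 1 → Set K) (r : ℕ) (v : Empty → K) (a : Fin r → K) :
    (letI := ul Q; (oF r).Realize v a) ↔ ((∀ i, a i ∈ Q 0) ∧
      ∀ x ∈ Q 0, ∃ (i : Fin r) (y : K), a i * (y * y) + -x ∈ Q 0 ∧
        x + x + -(a i * (y * y)) ∈ Q 0) := by
  let _ := ul Q
  show (oF r).Realize v a ↔ _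
  have hP : ∀ {n : ℕ} (t : RT n) (v : Empty → K) (xs : Fin n → K),
      (inP t).Realize v xs ↔ t.realize (Sum.elim v xs) ∈ Q 0 := realize_inP Q
  simp only [oF, BoundedFormula.realize_all, BoundedFormula.realize_imp,
      BoundedFormula.realize_ex, BoundedFormula.realize_inf, BoundedFormula.realize_iInf,
      BoundedFormula.realize_iSup, realize_add, hP, realize_mul, realize_var', realize_neg,
      Fin.snoc_last, Fin.snoc_castSucc]

/-- The property `OSet` is first order. -/
theorem oSet_transfer {K' : Type} [Field K'] [CompatibleRing K'] {r : ℕ} {a : Fin r → K}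
    {a' : Fin r → K'} {P : Set K} {Q : Set K'} (hP : OSet a P)
    (hS : SameC FirstOrder.Language.ring a a' P Q) : OSet a' Q := by
  obtain ⟨hS0, hS1⟩ := hS
  have h := (@elementarilyEquivalent_iff _ K K' (@sumStructure _ _ K _ (ul fun _ : Fin 1 => P))
    (@sumStructure _ _ K' _ (ul fun _ : Fin 1 => Q))).1 hS0 oF0
  have h1 := realize_oF0 (fun _ : Fin 1 => P) default default
  have h2 := realize_oF0 (fun _ : Fin 1 => Q) default default
  have h3 := h2.1 (h.1 (h1.2 ⟨hP.add, hP.mul, hP.total, hP.anti⟩))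
  have h4 := (realize_oF (fun _ : Fin 1 => Q) r default a').1
    ((hS1 (oF r)).1 ((realize_oF (fun _ : Fin 1 => P) r default a).2 ⟨hP.pos, hP.sq⟩))
  exact ⟨h3.1, h3.2.1, h3.2.2.1, h3.2.2.2, h4.1, h4.2⟩

end fo

/-- The comparison of two orderings with the same real place. -/
theorem nonneg_of_place2 {A B : Type} [Field A] [LinearOrder A] [IsStrictOrderedRing A] [Field B]
    [LinearOrder B] [IsStrictOrderedRing B] (e : A ≃+* B)
    (h1 : ∀ x : A, -1 < x → x < 1 → -2 < e x ∧ e x < 2)
    (h2 : ∀ x : A, -1 < e x → e x < 1 → -2 < x ∧ x < 2)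
    (x w : A) (hx : 0 < x) (hy1 : x ≤ w) (hy2 : w ≤ x + x) (hw : 0 ≤ e w) : 0 ≤ e x := by
  by_contra hneg
  push Not at hneg
  have hyy : 0 < w := lt_of_lt_of_le hx hy1
  set r := x / w with hr
  have hr1 : r ≤ 1 := (div_le_one hyy).2 hy1
  have hr2 : 1 / 2 ≤ r := by
    rw [hr, le_div_iff₀ hyy]
    linarith
  have her : e r < 0 := by
    rw [hr, map_div₀]
    have : 0 < e w := by
      refine lt_of_le_of_ne hw fun h3 => ?_
      have h4 : w = 0 := (map_eq_zero_iff e e.injective).1 h3.symm
      rw [h4] at hyy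
      exact lt_irrefl _ hyy
    exact div_neg_of_neg_of_pos hneg this
  -- powers: |x| < 1 implies |e x| ≤ 1 + 1/n
  have key : ∀ t : A, -1 < t → t < 1 → ∀ n : ℕ, 0 < n → -(e t) ≤ 1 + 1 / (n : B) := by
    intro t ht1 ht2 n hn
    by_contra hcon
    push Not at hcon
    have hn' : (0 : B) < n := by exact_mod_cast hn
    have hinv : (0 : B) < 1 / (n : B) := by positivity
    have h3 : (1 + 1 / (n : B)) ^ (2 * n) ≤ (-(e t)) ^ (2 * n) :=
      pow_le_pow_left₀ (by positivity) hcon.le _
    have h4 : 1 + ((2 * n : ℕ) : B) * (1 / (n : B)) ≤ (1 + 1 / (n : B)) ^ (2 * n) :=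
      one_add_mul_le_pow (by linarith) _
    have h5 : ((2 * n : ℕ) : B) * (1 / (n : B)) = 2 := by
      push_cast
      field_simp
    have h6 : (-(e t)) ^ (2 * n) = e (t ^ (2 * n)) := by
      rw [map_pow, Even.neg_pow (even_two_mul n)]
    have habs : |t| < 1 := abs_lt.2 ⟨ht1, ht2⟩
    have h7 : |t ^ (2 * n)| < 1 := by
      rw [abs_pow]
      exact pow_lt_one₀ (abs_nonneg _) habs (by omega)
    have h8 := (h1 _ (abs_lt.1 h7).1 (abs_lt.1 h7).2).2
    rw [h5] at h4
    rw [h6] at h3
    linarith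
  have h3 := key (r - 1) (by linarith) (by linarith) 8 (by norm_num)
  rw [map_sub, map_one] at h3
  have h4 := h2 (4 * r) (by
    rw [map_mul, map_ofNat]
    norm_num at h3
    linarith) (by
    rw [map_mul, map_ofNat]
    linarith)
  linarith [h4.2]

theorem oSet_of {K : Type} [Field K] {r : ℕ} {a : Fin r → K} (o : FieldOrder K)
    (h : Adapted a o) : OSet a {x : K | o.le 0 x} := by
  letI := o.toLinearOrder
  haveI := o.ord
  refine ⟨fun x hx y hy => add_nonneg (a := x) hx hy, fun x hx y hy => mul_nonneg (a := x) hx hy,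
    fun x => ?_, fun x hx hx' => ?_, h.1, fun x hx => ?_⟩
  · rcases le_total 0 x with h1 | h1
    · exact Or.inl h1
    · exact Or.inr (show (0 : K) ≤ -x from neg_nonneg.2 h1)
  · have h1 : (0 : K) ≤ -x := hx'
    exact le_antisymm (neg_nonneg.1 h1) hx
  · obtain ⟨i, y, h1, h2⟩ := h.2 x hx
    have h1' : x ≤ a i * (y * y) := h1
    have h2' : a i * (y * y) ≤ x + x := h2
    refine ⟨i, y, ?_, ?_⟩
    · show (0 : K) ≤ a i * (y * y) + -x
      linarith
    · show (0 : K) ≤ x + x + -(a i * (y * y))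
      linarith

/-- the field ordering of a set with `OSet` -/
noncomputable def ofO {K : Type} [Field K] {r : ℕ} {a : Fin r → K} {Q : Set K} (h : OSet a Q) :
    FieldOrder K :=
  letI : LinearOrder K :=
    { le := fun x y => y + -x ∈ Q
      le_refl := fun x => by
        show x + -x ∈ Q
        rw [add_neg_cancel]
        rcases h.total 0 with h1 | h1
        · exact h1
        · rwa [neg_zero] at h1
      le_trans := fun x y z h1 h2 => by
        show z + -x ∈ Q
        have h3 := h.add _ h1 _ h2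
        have h4 : y + -x + (z + -y) = z + -x := by ring
        rwa [h4] at h3
      le_antisymm := fun x y h1 h2 => by
        have h3 := h.anti _ h1 (by
          have h4 : -(y + -x) = x + -y := by ring
          rw [h4]
          exact h2)
        have h5 : y = x := by linear_combination h3
        exact h5.symm
      le_total := fun x y => by
        rcases h.total (y + -x) with h1 | h1
        · exact Or.inl h1
        · right
          have h4 : -(y + -x) = x + -y := by ring
          rw [h4] at h1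
          exact h1
      toDecidableLE := Classical.decRel _ }
  { toLinearOrder := this
    ord := by
      haveI h1 : IsOrderedAddMonoid K :=
        { add_le_add_left := fun x y hxy z => by
            show y + z + -(x + z) ∈ Q
            have h4 : y + z + -(x + z) = y + -x := by ring
            rw [h4]
            exact hxy }
      haveI h2 : ZeroLEOneClass K := ⟨by
        show (1 : K) + -0 ∈ Q
        rw [neg_zero, add_zero]
        rcases h.total 1 with h1 | h1
        · exact h1
        · have h2 := h.mul _ h1 _ h1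
          rwa [neg_mul_neg, mul_one] at h2⟩
      refine IsStrictOrderedRing.of_mul_pos fun x y hx hy => ?_
      have hx1 : x ∈ Q := by
        have : x + -0 ∈ Q := hx.le
        rwa [neg_zero, add_zero] at this
      have hy1 : y ∈ Q := by
        have : y + -0 ∈ Q := hy.le
        rwa [neg_zero, add_zero] at this
      refine lt_of_le_of_ne ?_ (mul_ne_zero hx.ne' hy.ne').symm
      show x * y + -0 ∈ Q
      rw [neg_zero, add_zero]
      exact h.mul _ hx1 _ hy1 }

theorem ofO_nonneg {K : Type} [Field K] {r : ℕ} {a : Fin r → K} {Q : Set K} (h : OSet a Q) (x : K) :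
    (ofO h).le 0 x ↔ x ∈ Q := by
  show x + -0 ∈ Q ↔ _
  rw [neg_zero, add_zero]

theorem adapted_ofO {K : Type} [Field K] {r : ℕ} {a : Fin r → K} {Q : Set K} (h : OSet a Q) :
    Adapted a (ofO h) := by
  refine ⟨fun i => (ofO_nonneg h _).2 (h.pos i), fun x hx => ?_⟩
  obtain ⟨i, y, h1, h2⟩ := h.sq x ((ofO_nonneg h x).1 hx)
  exact ⟨i, y, h1, h2⟩

/-- Orderings with the same real place which are adapted to the same elements are comparable. -/
theorem le_of_place2 {K : Type} [Field K] {r : ℕ} {a : Fin r → K} (o o' : FieldOrder K)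
    (ho : Adapted a o) (ho' : Adapted a o')
    (h1 : ∀ x : K, o.lt (-1) x → o.lt x 1 → o'.lt (-2) x ∧ o'.lt x 2)
    (h2 : ∀ x : K, o'.lt (-1) x → o'.lt x 1 → o.lt (-2) x ∧ o.lt x 2) (x : K) (hx : o.le 0 x) :
    o'.le 0 x := by
  obtain ⟨i, y, hy1, hy2⟩ := ho.2 x hx
  by_cases hx0 : x = 0
  · rw [hx0]
    exact o'.toLinearOrder.le_refl 0
  have hw : o'.le 0 (a i * (y * y)) := by
    letI := o'.toLinearOrder
    haveI := o'.ord
    exact mul_nonneg (a := a i) (ho'.1 i) (mul_self_nonneg y)
  have hxp : o.lt 0 x := by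
    letI := o.toLinearOrder
    exact lt_of_le_of_ne hx (Ne.symm hx0)
  exact @nonneg_of_place2 K K _ o.toLinearOrder o.ord _ o'.toLinearOrder o'.ord (RingEquiv.refl K)
    h1 h2 x (a i * (y * y)) hxp hy1 hy2 hw

theorem o_bound {K' : Type} [Field K'] {r : ℕ} {a : Fin r → K'} {N : ℕ}
    (hN : ∀ o : Fin N → FieldOrder K', ∃ i j, i ≠ j ∧
        (∀ x : K', (o i).lt (-1) x → (o i).lt x 1 → (o j).lt (-2) x ∧ (o j).lt x 2) ∧
        (∀ x : K', (o j).lt (-1) x → (o j).lt x 1 → (o i).lt (-2) x ∧ (o i).lt x 2))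
    (Q : Fin N → Set K') (hQ : ∀ i, OSet a (Q i)) : ¬ Function.Injective Q := by
  intro hinj
  obtain ⟨i, j, hij, h1, h2⟩ := hN fun i => ofO (hQ i)
  refine hij (hinj ?_)
  ext x
  have h3 := le_of_place2 _ _ (adapted_ofO (hQ i)) (adapted_ofO (hQ j)) h1 h2 x
  have h4 := le_of_place2 _ _ (adapted_ofO (hQ j)) (adapted_ofO (hQ i)) h2 h1 x
  rw [ofO_nonneg, ofO_nonneg] at h3 h4
  exact ⟨h3, h4⟩

theorem ord_main4 (hKu : KStm) (K : Type) [Field K] [FirstOrder.Ring.CompatibleRing K]
    (hK : NIPField K ∨ (∃ n, NIPnField n K) ∨ NTP2Field K) :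
    (∀ (o : FieldOrder K) (r : ℕ) (a : Fin r → K), Adapted a o →
      ∃ (p : ℕ) (ψ : FirstOrder.Language.ring.Formula (Fin 1 ⊕ Fin p)) (c : Fin p → K),
        ∀ x : K, o.le 0 x ↔ ψ.Realize (Sum.elim (fun _ => x) c)) ∧
    ∃ N : ℕ, ∀ (K' : Type) [Field K'] [FirstOrder.Ring.CompatibleRing K'],
      FirstOrder.Language.ring.ElementarilyEquivalent K K' → ∀ (r : ℕ) (a : Fin r → K'),
      {o : FieldOrder K' | Adapted a o}.encard < N := by
  obtain ⟨N, hN⟩ := Pool.Agent.Results.MP_3554b5_lc.LocalPlaces.result K hK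
  refine ⟨fun o r a ho => ?_, N, fun K' _ _ hKK' r a => ?_⟩
  · refine kueker_const hKu FirstOrder.Language.ring K {x : K | o.le 0 x} N r a ?_
    intro M' _ _ a' Q hQ hinj
    rcases Nat.eq_zero_or_pos N with rfl | hNpos
    · obtain ⟨i, -⟩ := (hN K same_self).2.2.2 (fun i => i.elim0)
      exact i.elim0
    · have he : FirstOrder.Language.ring.ElementarilyEquivalent K M' := by
        let _ := ul fun _ : Fin 1 => {x : K | o.le 0 x}
        let _ := ul fun _ : Fin 1 => Q ⟨0, hNpos⟩
        have h' : (FirstOrder.Language.ring.sum (UL 1)).ElementarilyEquivalent K M' :=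
          (hQ ⟨0, hNpos⟩).1
        rw [elementarilyEquivalent_iff] at h' ⊢
        intro φ
        have h1 := h' (LHom.sumInl.onSentence φ)
        rwa [LHom.realize_onSentence, LHom.realize_onSentence] at h1
      have : FirstOrder.Language.Theory.field.Model M' := by
        have h1 : FirstOrder.Language.Theory.field.Model K := inferInstance
        exact he.theory_model_iff.1 h1
      let _ := FirstOrder.Field.fieldOfModelField M'
      let _ := FirstOrder.Field.compatibleRingOfModelField M'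
      exact o_bound (hN M' he).2.2.2 Q (fun i => oSet_transfer (oSet_of o ho) (hQ i)) hinj
  · by_contra hcon
    rw [not_lt] at hcon
    obtain ⟨t, ht, htN⟩ := Set.exists_subset_encard_eq hcon
    have htf : t.Finite := Set.finite_of_encard_eq_coe htN
    have hcard : htf.toFinset.card = N := by
      have h1 := htf.encard_eq_coe_toFinset_card
      rw [htN] at h1
      exact_mod_cast h1.symm
    let e : Fin N → FieldOrder K' := fun i => (htf.toFinset.equivFinOfCardEq hcard).symm i
    have heinj : Function.Injective e := fun i j hij =>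
      (htf.toFinset.equivFinOfCardEq hcard).symm.injective (Subtype.ext hij)
    have hemem : ∀ i, Adapted a (e i) := fun i =>
      ht (htf.mem_toFinset.1 ((htf.toFinset.equivFinOfCardEq hcard).symm i).2)
    exact o_bound (hN K' hKK').2.2.2 (fun i => {x : K' | (e i).le 0 x})
      (fun i => oSet_of (e i) (hemem i)) fun i j hij => heinj (ord_ext hij)

end Pool.Agent.R492.DW
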